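import Pool.Agent.TH188.WQ.Defs
import Pool.Agent.W52.WD.Tbl

/-!
# WQ-TBL (job 855, helper188, MP_19ffc6_ag)
The blowup of the intersection of two components of the boundary, relative version.
-/

set_option autoImplicit false
set_option linter.unusedVariables false
set_option linter.unusedSectionVars false

universe u

namespace Pool.Agent.TH558.WQ

open Pool.Agent.W558 Pool.Agent.TH188.WQ Pool.Agent.W52.WD

/-- The exponents. -/
def Th {I : Type} [DecidableEq I] (i j : I) : Option I → I → ℤ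
  | none, l => if l = i ∨ l = j then 1 else 0
  | some l, l' => if l = l' then 1 else 0

section

variable {k N : Type u} [Field k] [Field N] [Algebra k N]

variable {T I : Type} [Fintype I] [DecidableEq I] (M : LM (⊥ : Subalgebra k N) ⊤ T I) {i j : I}

/-- Lifting of logarithmic tangent vectors. -/
theorem lift_aux (hij : i ≠ j) (q : T × Bool) (y : N) (hy : y ∈ M.A q.1)
    (κ : Type u) [Field κ] [Algebra k κ] (A' : Subalgebra k N) (X' : Option I → N)
    (hA' : A' = bA M i j q) (hX' : X' = bX M i j q) (φ : A' →ₐ[k] κ) (hle' : M.A q.1 ≤ A')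
    (v : LT (φ.comp (Subalgebra.inclusion hle')) (ox y (M.x q.1))) :
    ∃ v' : LT φ (ox y X'),
      (∀ a (ha : a ∈ M.A q.1), v'.D.D ⟨a, hle' ha⟩ = v.D.D ⟨a, ha⟩) ∧
      ∀ l, ∑ o, (Th i j o l : κ) * v'.e (some o) = v.e (some l) := by
  subst hA' hX'
  have := M.sm q.1
  have hQ : ∀ l : I, (l = i ∨ l = j) ↔ (l = nu i j q.2 ∨ l = de i j q.2) := by
    intro l
    rcases q with ⟨t, b'⟩
    cases b'
    · change (l = i ∨ l = j) ↔ (l = j ∨ l = i)
      exact or_comm
    · exact Iff.rfl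
  set a : I := nu i j q.2 with ha
  set b : I := de i j q.2 with hb
  have hab : a ≠ b := nu_ne_de i j hij q.2
  have hle := le_bA M i j q
  let φ0 : M.A q.1 →ₐ[k] κ := φ.comp (Subalgebra.inclusion hle')
  change LT φ0 (ox y (M.x q.1)) at v
  have hφ0 : ∀ (z : N) (hz : z ∈ M.A q.1) (hz' : z ∈ bA M i j q), φ ⟨z, hz'⟩ = φ0 ⟨z, hz⟩ :=
    fun z hz hz' => rfl
  have hyx : ((⟨M.x q.1 b, M.xA _ _⟩ : M.A q.1) : N) ≠ 0 := M.x0 _ _
  have hT : Trans (M.A q.1) (⟨M.x q.1 a, M.xA _ _⟩ : M.A q.1) ⟨M.x q.1 b, M.xA _ _⟩ :=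
    (M.snc q.1).trans hab _ _
  have hvm : M.x q.1 a / M.x q.1 b ∈ bA M i j q := vv_mem M i j q
  have hDa := v.hx (some a) (M.xA _ _)
  have hDb := v.hx (some b) (M.xA _ _)
  change v.D.D ⟨M.x q.1 a, M.xA _ _⟩ = φ0 ⟨M.x q.1 a, M.xA _ _⟩ * v.e (some a) at hDa
  change v.D.D ⟨M.x q.1 b, M.xA _ _⟩ = φ0 ⟨M.x q.1 b, M.xA _ _⟩ * v.e (some b) at hDb
  have hrel : φ0 ⟨M.x q.1 b, M.xA _ _⟩ * φ ⟨M.x q.1 a / M.x q.1 b, hvm⟩ =
      φ0 ⟨M.x q.1 a, M.xA _ _⟩ := by
    rw [← hφ0 _ _ (hle (M.xA _ _)), ← hφ0 _ _ (hle (M.xA _ _)), ← map_mul]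
    congr 1
    apply Subtype.ext
    change M.x q.1 b * (M.x q.1 a / M.x q.1 b) = M.x q.1 a
    have := M.x0 q.1 b
    field_simp
  obtain ⟨E, hE1, hE2⟩ : ∃ E : TV φ, (∀ z : M.A q.1, E.D ⟨z, hle z.2⟩ = v.D.D z) ∧
      E.D ⟨M.x q.1 a / M.x q.1 b, hvm⟩ =
        φ ⟨M.x q.1 a / M.x q.1 b, hvm⟩ * (v.e (some a) - v.e (some b)) :=
    TV.ext_adj (A := M.A q.1) hyx hT φ φ0 (fun _ => rfl) v.D
    (φ ⟨M.x q.1 a / M.x q.1 b, hvm⟩ * (v.e (some a) - v.e (some b))) (by
      change φ0 ⟨M.x q.1 b, M.xA _ _⟩ * (φ ⟨M.x q.1 a / M.x q.1 b, hvm⟩ *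
        (v.e (some a) - v.e (some b))) + φ ⟨M.x q.1 a / M.x q.1 b, hvm⟩ *
        v.D.D ⟨M.x q.1 b, M.xA _ _⟩ = v.D.D ⟨M.x q.1 a, M.xA _ _⟩
      rw [hDa, hDb, ← hrel]
      ring)
  have hE1' : ∀ (z : N) (hz : z ∈ M.A q.1) (hz' : z ∈ bA M i j q), E.D ⟨z, hz'⟩ =
      v.D.D ⟨z, hz⟩ := fun z hz hz' => hE1 ⟨z, hz⟩
  let e' : Option (Option I) → κ
    | none => v.e none
    | some none => v.e (some b)
    | some (some l) => if l = a then v.e (some a) - v.e (some b) else
        if l = b then 0 else v.e (some l)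
  refine ⟨⟨E, e', ?_⟩, ?_, ?_⟩
  · rintro (_ | _ | l) ho
    · exact (hE1' y hy ho).trans (v.hx none hy)
    · exact (hE1' (M.x q.1 b) (M.xA _ _) ho).trans hDb
    · change E.D ⟨bX M i j q (some l), ho⟩ = φ ⟨bX M i j q (some l), ho⟩ * (if l = a then
        v.e (some a) - v.e (some b) else if l = b then 0 else v.e (some l))
      simp only [bX, bx] at ho ⊢
      split_ifs at ho ⊢ with h1 h2
      · exact hE2
      · rw [mul_zero]
        exact E.D_one
      · rw [hE1' _ (M.xA _ _), hφ0 _ (M.xA _ _)]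
        exact v.hx (some l) (M.xA _ _)
  · intro z hz
    exact hE1' z hz _
  · intro l'
    rw [Fintype.sum_option]
    change (((if l' = i ∨ l' = j then 1 else 0 : ℤ)) : κ) * v.e (some b) +
      ∑ l, (((if l = l' then 1 else 0 : ℤ)) : κ) * (if l = a then v.e (some a) - v.e (some b) else
        if l = b then 0 else v.e (some l)) = v.e (some l')
    have h1 : ∑ l, (((if l = l' then 1 else 0 : ℤ)) : κ) * (if l = a then v.e (some a) - v.e (some b)
        else if l = b then 0 else v.e (some l)) = (if l' = a then v.e (some a) - v.e (some b)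
        else if l' = b then 0 else v.e (some l')) := by
      rw [Finset.sum_eq_single l']
      · rw [if_pos rfl, Int.cast_one, one_mul]
      · intro l _ hl
        rw [if_neg hl, Int.cast_zero, zero_mul]
      · intro h
        exact absurd (Finset.mem_univ _) h
    rw [h1]
    by_cases h2 : l' = a
    · rw [if_pos ((hQ l').mpr (Or.inl h2)), if_pos h2, h2]
      push_cast
      ring
    · by_cases h3 : l' = b
      · rw [if_pos ((hQ l').mpr (Or.inr h3)), if_neg h2, if_pos h3, h3]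
        push_cast
        ring
      · rw [if_neg (fun h => ((hQ l').mp h).elim h2 h3), if_neg h2, if_neg h3]
        push_cast
        ring

end

theorem main : Pool.Agent.TH188.WQ.WQ_tbl.{u} := by
  intro p _ k N _ _ _ _ T I G _ _ _ M F Q y h c μ g Γ hPS hLq hFn i j hij
  obtain ⟨M', hA, hx, hH⟩ := exists_blowup M hij
  have hA' : ∀ q, M'.A q = bA M i j q := fun q => congrFun hA q
  have hx' : ∀ q, M'.x q = bX M i j q := fun q => congrFun hx q
  have hle : ∀ q : T × Bool, M.A q.1 ≤ M'.A q := fun q => by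
    rw [hA']; exact le_bA M i j q
  have hxl : ∀ (q : T × Bool) (l : I), M.x q.1 l = M'.x q (some l) *
      (if l = i ∨ l = j then M'.x q none else 1) := fun q l => by
    rw [hx']; exact x_eq_bX M hij q l
  have hcm : ∀ (q : T × Bool) (l : I), (if l = i ∨ l = j then M'.x q none else 1) ∈ M'.A q := by
    intro q l
    split_ifs
    · exact M'.xA _ _
    · exact (M'.A q).one_mem
  have hce : (fun o : Option I => (o.elim (c i + c j) c : ℤ)) = bΓ i j c := by
    funext o
    cases o <;> rfl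
  obtain ⟨hs1, hs2, hs3, hs4⟩ := sep_blowup M hij M' hA hx
  refine ⟨M', fun q => y q.1, bΓ i j μ, fun a => bΓ i j (Γ a), Th i j, ?_, ?_,
    (ext_blowup M hij g Γ M' hA hx hH).fn hFn, hs1, hs2, hs3, hs4, ?_, ?_, ?_, ?_⟩
  · refine ⟨fun q => hle q (hPS.yA q.1), fun q => hPS.y0 q.1, fun q => hle q (hPS.hA q.1), ?_, ?_,
      fun q => hPS.yQ q.1, ?_, ?_, ?_⟩
    · intro q
      rw [hA']
      refine adj_le (hPS.AQ q.1) ?_
      unfold vv
      rw [div_eq_mul_inv]
      exact Q.mul_mem (hPS.AQ q.1 (M.xA _ _)) (hPS.xQ _ _)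
    · intro q o
      rw [hx']
      rcases o with _ | l
      · exact hPS.xQ _ _
      · simp only [bX, bx]
        split_ifs
        · rw [inv_div, div_eq_mul_inv]
          exact Q.mul_mem (hPS.AQ q.1 (M.xA _ _)) (hPS.xQ _ _)
        · rw [inv_one]
          exact Q.one_mem
        · exact hPS.xQ _ _
    · intro q
      have h1 := hPS.eq q.1
      rw [prod_bX M hij q, prod_bX M hij q] at h1
      have h2 : bΓ i j (fun l => (p : ℤ) * μ l) = fun o => (p : ℤ) * bΓ i j μ o := by
        funext o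
        cases o with
        | none =>
          change (p : ℤ) * μ i + (p : ℤ) * μ j = (p : ℤ) * (μ i + μ j)
          ring
        | some l => rfl
      rw [h2, ← hce] at h1
      rw [hx']
      exact h1
    · intro q
      rw [hA', hx']
      exact snc_aux M hij q (y q.1) (hPS.yA q.1) (hPS.y0 q.1) (hPS.snc q.1)
    · intro q κ _ _ φ
      exact ln_aux M hij q (y q.1) (h q.1) (hPS.yA q.1) (hPS.hA q.1) c κ (M'.A q) (M'.x q) (hA' q)
        (hx' q) φ (hle q (hPS.hA q.1)) (fun κ _ _ φ => hPS.ln q.1 κ φ)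
  · intro q z hz
    obtain ⟨α, hα, β, hβ, h1⟩ := hLq q.1 z hz
    exact ⟨α, hle q hα, β, hle q hβ, h1⟩
  · intro l hl q
    obtain ⟨α, hα, β, hβ, h1⟩ := hl q.1
    refine ⟨α * (if l = i ∨ l = j then M'.x q none else 1),
      (M'.A q).mul_mem (hle q hα) (hcm q l), β, hle q hβ, ?_⟩
    rw [hxl q l] at h1
    linear_combination h1
  · intro hl q
    obtain ⟨α, hα, β, hβ, h1⟩ := hl q.1
    refine ⟨α * M'.x q (some i), (M'.A q).mul_mem (hle q hα) (M'.xA _ _), β, hle q hβ, ?_⟩
    have h2 := hxl q i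
    rw [if_pos (Or.inl rfl)] at h2
    rw [← h1, h2]
    ring
  · refine ⟨hle, ?_, ?_, ?_⟩
    · intro q l
      rw [Fintype.prod_option]
      have h1 : ∏ l', M'.x q (some l') ^ Th i j (some l') l = M'.x q (some l) := by
        rw [Finset.prod_eq_single l]
        · change M'.x q (some l) ^ (if l = l then 1 else 0 : ℤ) = _
          rw [if_pos rfl, zpow_one]
        · intro l' _ hl
          change M'.x q (some l') ^ (if l' = l then 1 else 0 : ℤ) = _
          rw [if_neg hl, zpow_zero]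
        · intro h
          exact absurd (Finset.mem_univ _) h
      rw [h1, hxl q l, mul_comm]
      congr 1
      change _ = M'.x q none ^ (if l = i ∨ l = j then 1 else 0 : ℤ)
      split_ifs
      · rw [zpow_one]
      · rw [zpow_zero]
    · rintro (_ | l') l
      · change 0 ≤ (if l = i ∨ l = j then 1 else 0 : ℤ)
        split_ifs <;> norm_num
      · change 0 ≤ (if l' = l then 1 else 0 : ℤ)
        split_ifs <;> norm_num
    · intro q κ _ _ φ v
      exact lift_aux M hij q (y q.1) (hPS.yA q.1) κ (M'.A q) (M'.x q) (hA' q) (hx' q) φ (hle q) v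
  · rintro (_ | o)
    · change (c i + c j) + (p : ℤ) * (μ i + μ j) =
        ∑ l, (if l = i ∨ l = j then 1 else 0 : ℤ) * (c l + p * μ l)
      have h1 : ∀ l, (if l = i ∨ l = j then 1 else 0 : ℤ) * (c l + p * μ l) =
          (if l = i then (c l + p * μ l) else 0) + (if l = j then (c l + p * μ l) else 0) := by
        intro l
        by_cases h2 : l = i
        · rw [if_pos (Or.inl h2), if_pos h2, if_neg (h2 ▸ hij)]
          ring
        · by_cases h3 : l = j
          · rw [if_pos (Or.inr h3), if_neg h2, if_pos h3]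
            ring
          · rw [if_neg (fun h => h.elim h2 h3), if_neg h2, if_neg h3]
            ring
      simp only [h1, Finset.sum_add_distrib, Finset.sum_ite_eq', Finset.mem_univ, if_true]
      ring
    · change c o + (p : ℤ) * μ o = ∑ l, (if o = l then 1 else 0 : ℤ) * (c l + p * μ l)
      rw [Finset.sum_eq_single o]
      · rw [if_pos rfl, one_mul]
      · intro l _ hl
        rw [if_neg (Ne.symm hl), zero_mul]
      · intro h
        exact absurd (Finset.mem_univ _) h

end Pool.Agent.TH558.WQ
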